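import Pool.Agent.H627.FP.OR

/-!
# The punctured cone (S_O)
-/

set_option autoImplicit false

open CategoryTheory Limits AlgebraicGeometry

namespace Pool.Agent.H627.FP

open Pool.Agent.H919.FP

section gen

variable {R : CommRingCat.{0}}

/-- basic open sets -/
noncomputable abbrev DR (f : R) : (Spec R).Opens := PrimeSpectrum.basicOpen f

lemma hDR (f : R) : IsAffineOpen (DR f) := IsAffineOpen.Spec_basicOpen f

/-- the map from the ring to the sections -/
noncomputable def rr (U : (Spec R).Opens) : R ⟶ Γ(Spec R, U) :=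
  (Scheme.ΓSpecIso R).inv ≫ (Spec R).presheaf.map (homOfLE le_top).op

set_option backward.isDefEq.respectTransparency.types false in
lemma locR (f : R) :
    @IsLocalization.Away R _ f Γ(Spec R, DR f) _ (rr (DR f)).hom.toAlgebra := by
  have h : IsLocalization.Away f Γ(Spec R, PrimeSpectrum.basicOpen f) := inferInstance
  have e : (rr (DR f)).hom.toAlgebra = (inferInstance : Algebra R Γ(Spec R, DR f)) := by
    apply Algebra.algebra_ext
    intro r
    rfl
  rw [e]
  exact h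

lemma rr_res {U V : (Spec R).Opens} (h : V ≤ U) :
    rr U ≫ (Spec R).presheaf.map (homOfLE h).op = rr V := by
  unfold rr
  rw [Category.assoc, ← Functor.map_comp]
  rfl

lemma fromSpec_DR (f : R) : (hDR f).fromSpec = Spec.map (rr (DR f)) := by
  rw [← (isAffineOpen_top (Spec R)).map_fromSpec (hDR f) (homOfLE le_top).op,
    IsAffineOpen.fromSpec_top, Scheme.isoSpec_Spec_inv, ← Spec.map_comp]
  rfl

lemma DR_ι (f : R) : (DR f).ι = (hDR f).isoSpec.hom ≫ Spec.map (rr (DR f)) := by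
  rw [← fromSpec_DR, IsAffineOpen.isoSpec_hom_fromSpec]

end gen

/-- basic open sets of `TT` -/
noncomputable abbrev DD (f : B) : TT.Opens := DR (R := CommRingCat.of B) f

/-- restriction as a ring homomorphism -/
noncomputable def am (U : TT.Opens) : B →+* Γ(TT, U) := (rr (R := CommRingCat.of B) U).hom

lemma smooth_D (hB1 : S_B1) (i : Fin 3) (f : B)
    (hf : f = MvPolynomial.aeval pB (MvPolynomial.pderiv i H3)) :
    Smooth ((DD f).ι ≫ str) := by
  rw [DD, DR_ι, Category.assoc]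
  have h1 : Smooth (Spec.map (rr (R := CommRingCat.of B) (DD f)) ≫ str) := by
    unfold str
    rw [← Spec.map_comp, HasRingHomProperty.Spec_iff (P := @Smooth)]
    let : Algebra B Γ(TT, DD f) := (am (DD f)).toAlgebra
    have : IsLocalization.Away f Γ(TT, DD f) := locR (R := CommRingCat.of B) f
    let : Algebra (ZMod 2) Γ(TT, DD f) :=
      ((algebraMap B Γ(TT, DD f)).comp (algebraMap (ZMod 2) B)).toAlgebra
    have : IsScalarTower (ZMod 2) B Γ(TT, DD f) := IsScalarTower.of_algebraMap_eq' rfl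
    have hs := stdSmooth hB1 i f hf Γ(TT, DD f)
    exact (RingHom.smooth_algebraMap (R := ZMod 2) (S := Γ(TT, DD f))).2 hs
  infer_instance

set_option backward.isDefEq.respectTransparency.types false

lemma gg_mem (P : PrimeSpectrum B) (h0 : pB 0 ∈ P.asIdeal) (h1 : pB 1 ∈ P.asIdeal) :
    gg pB ∈ P.asIdeal := by
  unfold gg
  refine Ideal.add_mem _ (Ideal.pow_mem_of_mem _ h1 _ (by norm_num)) ?_
  exact Ideal.mul_mem_right _ _ (Ideal.pow_mem_of_mem _ h0 _ (by norm_num))

lemma OO_eq : OO = DD (pB 0 ^ 3) ⊔ DD (gg pB) := by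
  apply TopologicalSpace.Opens.ext
  ext P
  change PrimeSpectrum B at P
  have key : (¬ (pB 0 ∈ P.asIdeal) ∨ ¬ (pB 1 ∈ P.asIdeal)) ↔
      (¬ (pB 0 ^ 3 ∈ P.asIdeal) ∨ ¬ (gg pB ∈ P.asIdeal)) := by
    rw [← not_and_or, ← not_and_or, not_iff_not]
    constructor
    · rintro ⟨h0, h1⟩
      exact ⟨Ideal.pow_mem_of_mem _ h0 _ (by norm_num), gg_mem P h0 h1⟩
    · rintro ⟨h0, hg⟩
      have h0' := P.2.mem_of_pow_mem _ h0
      refine ⟨h0', ?_⟩
      have : pB 1 ^ 3 = gg pB - pB 0 ^ 2 * pB 2 := by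
        unfold gg; ring
      have h1 : pB 1 ^ 3 ∈ P.asIdeal := by
        rw [this]
        exact Ideal.sub_mem _ hg (Ideal.mul_mem_right _ _ (Ideal.pow_mem_of_mem _ h0' _ (by norm_num)))
      exact P.2.mem_of_pow_mem _ h1
  exact key

lemma smooth_OO (hB1 : S_B1) : Smooth (OO.ι ≫ str) := by
  have h2 : (2 : B) = 0 := hB1.2.1
  have hc : ∀ b : Bool, Smooth ((DD (bif b then pB 0 ^ 3 else gg pB)).ι ≫ str) := by
    intro b
    cases b
    · exact smooth_D hB1 0 _ (pd0 h2).symm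
    · exact smooth_D hB1 2 _ (pd2 h2).symm
  rw [IsZariskiLocalAtSource.iff_of_iSup_eq_top (P := @Smooth.{0})
    (fun b : Bool => OO.ι ⁻¹ᵁ (DD (bif b then pB 0 ^ 3 else gg pB)))]
  · intro b
    rw [← morphismRestrict_ι_assoc]
    have := hc b
    infer_instance
  · rw [← Scheme.Hom.preimage_iSup]
    have : (⨆ b : Bool, DD (bif b then pB 0 ^ 3 else gg pB)) = OO := by
      rw [iSup_bool_eq, OO_eq]
      rfl
    rw [this]
    simp

lemma qc_OO : QuasiCompact OO.ι := by
  rw [HasAffineProperty.iff_of_isAffine (P := @QuasiCompact.{0})]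
  apply isCompact_iff_compactSpace.1
  exact (PrimeSpectrum.isCompact_basicOpen (pB 0)).union (PrimeSpectrum.isCompact_basicOpen (pB 1))

lemma lft (hB1 : S_B1) : LocallyOfFiniteType str := by
  unfold str
  rw [HasRingHomProperty.Spec_iff (P := @LocallyOfFiniteType)]
  obtain ⟨e, he⟩ := exists_equiv hB1
  have h : Algebra.FiniteType (ZMod 2) Q3 := inferInstance
  have : Algebra.FiniteType (ZMod 2) B := h.equiv e
  exact (RingHom.finiteType_algebraMap (A := ZMod 2) (B := B)).2 this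


lemma am_inj (f : B) (hf : ∀ c : B, f * c = 0 → c = 0) : Function.Injective (am (DD f)) := by
  let : Algebra B Γ(TT, DD f) := (am (DD f)).toAlgebra
  have : IsLocalization.Away f Γ(TT, DD f) := locR (R := CommRingCat.of B) f
  refine IsLocalization.injective (M := Submonoid.powers f) Γ(TT, DD f) ?_
  rintro _ ⟨n, rfl⟩
  rw [mem_nonZeroDivisors_iff]
  have key : ∀ n : ℕ, ∀ c : B, f ^ n * c = 0 → c = 0 := by
    intro n
    induction n with
    | zero => intro c h; simpa using h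
    | succ n ih => intro c h; exact ih c (hf _ (by rw [← mul_assoc, ← pow_succ', h]))
  exact ⟨fun c h => key n c h, fun c h => key n c (by rw [mul_comm]; exact h)⟩

lemma dom_DD (f : B) (hf : ∀ c : B, f * c = 0 → c = 0) : (DD f).ι.ker = ⊥ := by
  rw [DD, DR_ι, Scheme.Hom.ker_comp_of_isIso, Scheme.ker_of_isAffine]
  have h : RingHom.ker (Spec.map (rr (R := CommRingCat.of B) (DD f))).appTop.hom = ⊥ := by
    rw [← RingHom.injective_iff_ker_eq_bot]
    have e := Scheme.ΓSpecIso_naturality (rr (R := CommRingCat.of B) (DD f))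
    have h1 : Function.Injective (((Spec.map (rr (R := CommRingCat.of B) (DD f))).appTop ≫
        (Scheme.ΓSpecIso Γ(TT, DD f)).hom)) := by
      rw [e]
      intro a b hab
      have h3 : am (DD f) ((Scheme.ΓSpecIso (CommRingCat.of B)).hom a) =
        am (DD f) ((Scheme.ΓSpecIso (CommRingCat.of B)).hom b) := hab
      have h4 := am_inj f hf h3
      exact (ConcreteCategory.bijective_of_isIso (Scheme.ΓSpecIso (CommRingCat.of B)).hom).1 h4
    intro a b hab
    apply h1
    show (Scheme.ΓSpecIso Γ(TT, DD f)).hom _ = (Scheme.ΓSpecIso Γ(TT, DD f)).hom _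
    exact congrArg _ hab
  rw [h]
  exact Scheme.IdealSheafData.ext_of_isAffine (by simp)

lemma dom_OO (hB2 : S_B2) : IsSchemeTheoreticallyDominant OO.ι := by
  have hx : ∀ c : B, pB 0 * c = 0 → c = 0 := (hB2 B).1
  have hle : DD (pB 0) ≤ OO := le_sup_left
  constructor
  have h1 := Scheme.Hom.le_ker_comp (TT.homOfLE hle) OO.ι
  rw [Scheme.homOfLE_ι, dom_DD _ hx] at h1
  exact le_bot_iff.1 h1


/-- restriction of sections -/
noncomputable def rs {U V : TT.Opens} (h : V ≤ U) : Γ(TT, U) →+* Γ(TT, V) :=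
  (TT.presheaf.map (homOfLE h).op).hom

lemma rs_am {U V : TT.Opens} (h : V ≤ U) (b : B) : rs h (am U b) = am V b := by
  have := rr_res (R := CommRingCat.of B) h
  exact congrArg (fun f => f.hom b) this

lemma rs_rs {U V W : TT.Opens} (h : V ≤ U) (h' : W ≤ V) (a : Γ(TT, U)) :
    rs h' (rs h a) = rs (h'.trans h) a := by
  unfold rs
  rw [← RingHom.comp_apply, ← CommRingCat.hom_comp, ← Functor.map_comp]
  rfl

lemma away_surj (f : B) (z : Γ(TT, DD f)) : ∃ (n : ℕ) (a : B), z * am (DD f) f ^ n = am (DD f) a := by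
  let : Algebra B Γ(TT, DD f) := (am (DD f)).toAlgebra
  have : IsLocalization.Away f Γ(TT, DD f) := locR (R := CommRingCat.of B) f
  exact IsLocalization.Away.surj f z

lemma away_eq (f : B) (a b : B) (h : am (DD f) a = am (DD f) b) : ∃ n : ℕ, f ^ n * a = f ^ n * b := by
  let : Algebra B Γ(TT, DD f) := (am (DD f)).toAlgebra
  have : IsLocalization.Away f Γ(TT, DD f) := locR (R := CommRingCat.of B) f
  exact IsLocalization.Away.exists_of_eq f h

lemma away_unit (f : B) : IsUnit (am (DD f) f) := by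
  let : Algebra B Γ(TT, DD f) := (am (DD f)).toAlgebra
  have : IsLocalization.Away f Γ(TT, DD f) := locR (R := CommRingCat.of B) f
  exact IsLocalization.Away.algebraMap_isUnit f

lemma cancel_pow (x : B) (hx : ∀ c : B, x * c = 0 → c = 0) (n : ℕ) (a b : B)
    (h : x ^ n * a = x ^ n * b) : a = b := by
  induction n with
  | zero => simpa using h
  | succ n ih =>
    apply ih
    have : x * (x ^ n * a - x ^ n * b) = 0 := by
      rw [mul_sub, ← mul_assoc, ← mul_assoc, ← pow_succ', h, sub_self]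
    exact sub_eq_zero.1 (hx _ this)

lemma hartogs (hB2 : S_B2) (α : Γ(TT, OO)) : ∃ a : B, am OO a = α := by
  have hx : ∀ c : B, pB 0 * c = 0 → c = 0 := (hB2 B).1
  have hxy : ∀ (N : ℕ) (a b : B), pB 1 ^ N * a = pB 0 ^ N * b →
      ∃ c : B, a = pB 0 ^ N * c ∧ b = pB 1 ^ N * c := (hB2 B).2
  have h0 : DD (pB 0) ≤ OO := le_sup_left
  have h1 : DD (pB 1) ≤ OO := le_sup_right
  obtain ⟨n, a1, e1⟩ := away_surj _ (rs h0 α)
  obtain ⟨m, a2, e2⟩ := away_surj _ (rs h1 α)
  have k0 : DD (pB 0 * pB 1) ≤ DD (pB 0) := by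
    show (PrimeSpectrum.basicOpen (pB 0 * pB 1) : TopologicalSpace.Opens (PrimeSpectrum B)) ≤
      PrimeSpectrum.basicOpen (pB 0)
    rw [PrimeSpectrum.basicOpen_mul]
    exact inf_le_left
  have k1 : DD (pB 0 * pB 1) ≤ DD (pB 1) := by
    show (PrimeSpectrum.basicOpen (pB 0 * pB 1) : TopologicalSpace.Opens (PrimeSpectrum B)) ≤
      PrimeSpectrum.basicOpen (pB 1)
    rw [PrimeSpectrum.basicOpen_mul]
    exact inf_le_right
  have f1 := congrArg (rs k0) e1
  have f2 := congrArg (rs k1) e2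
  rw [map_mul, map_pow, rs_rs, rs_am, rs_am] at f1 f2
  have e3 : am (DD (pB 0 * pB 1)) (a1 * pB 1 ^ m) = am (DD (pB 0 * pB 1)) (a2 * pB 0 ^ n) := by
    rw [map_mul, map_mul, map_pow, map_pow, ← f1, ← f2]
    ring
  obtain ⟨k, e4⟩ := away_eq _ _ _ e3
  have e5 : pB 1 ^ k * (a1 * pB 1 ^ m) = pB 1 ^ k * (a2 * pB 0 ^ n) := by
    apply cancel_pow _ hx k
    rw [mul_pow, mul_assoc, mul_assoc] at e4
    exact e4
  have e6 : pB 1 ^ (n + m + k) * (pB 0 ^ (m + k) * a1) =
      pB 0 ^ (n + m + k) * (pB 1 ^ (n + k) * a2) := by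
    have : pB 1 ^ (n + m + k) * (pB 0 ^ (m + k) * a1) =
      pB 1 ^ n * pB 0 ^ (m + k) * (pB 1 ^ k * (a1 * pB 1 ^ m)) := by ring
    rw [this, e5]
    ring
  obtain ⟨c, c1, c2⟩ := hxy _ _ _ e6
  refine ⟨c, ?_⟩
  have g0 : rs h0 (am OO c) = rs h0 α := by
    rw [rs_am]
    apply ((away_unit (pB 0)).pow (n + m + k)).mul_right_cancel
    have : rs h0 α * am (DD (pB 0)) (pB 0) ^ (n + m + k) =
      (rs h0 α * am (DD (pB 0)) (pB 0) ^ n) * am (DD (pB 0)) (pB 0) ^ (m + k) := by ring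
    rw [this, e1, ← map_pow, ← map_pow, ← map_mul, ← map_mul, mul_comm a1, c1, mul_comm c]
  have g1 : rs h1 (am OO c) = rs h1 α := by
    rw [rs_am]
    apply ((away_unit (pB 1)).pow (n + m + k)).mul_right_cancel
    have : rs h1 α * am (DD (pB 1)) (pB 1) ^ (n + m + k) =
      (rs h1 α * am (DD (pB 1)) (pB 1) ^ m) * am (DD (pB 1)) (pB 1) ^ (n + k) := by ring
    rw [this, e2, ← map_pow, ← map_pow, ← map_mul, ← map_mul, mul_comm a2, c2, mul_comm c]
  refine TT.IsSheaf.section_ext fun P hP => ?_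
  rcases hP with hP | hP
  · exact ⟨DD (pB 0), h0, hP, g0⟩
  · exact ⟨DD (pB 1), h1, hP, g1⟩

lemma bo (f : B) : TT.basicOpen (am OO f) = OO ⊓ DD f := by
  have e : am OO f = TT.presheaf.map (homOfLE (le_top : OO ≤ ⊤)).op
      ((Scheme.ΓSpecIso (CommRingCat.of B)).inv f) := rfl
  rw [e, Scheme.basicOpen_res]
  congr 1
  exact basicOpen_eq_of_affine (R := CommRingCat.of B) f

lemma notAffine (hB1 : S_B1) (hB2 : S_B2) : ¬ IsAffineOpen OO := by
  intro hO
  have hx : ∀ c : B, pB 0 * c = 0 → c = 0 := (hB2 B).1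
  have h := (hO.self_le_iSup_basicOpen_iff (s := {am OO (pB 0), am OO (pB 1)})).1 (by
    have e : OO ≤ (OO ⊓ DD (pB 0)) ⊔ (OO ⊓ DD (pB 1)) := by
      rw [← inf_sup_left]
      exact le_inf le_rfl le_rfl
    refine e.trans (sup_le ?_ ?_)
    · rw [← bo]
      exact le_iSup (fun f : ({am OO (pB 0), am OO (pB 1)} : Set Γ(TT, OO)) => TT.basicOpen f.1)
        ⟨am OO (pB 0), Set.mem_insert _ _⟩
    · rw [← bo]
      exact le_iSup (fun f : ({am OO (pB 0), am OO (pB 1)} : Set Γ(TT, OO)) => TT.basicOpen f.1)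
        ⟨am OO (pB 1), Set.mem_insert_of_mem _ rfl⟩)
  have h1 : (1 : Γ(TT, OO)) ∈ Ideal.span {am OO (pB 0), am OO (pB 1)} := by
    rw [h]; exact Submodule.mem_top
  rw [Ideal.mem_span_pair] at h1
  obtain ⟨α, β, e⟩ := h1
  obtain ⟨a, rfl⟩ := hartogs hB2 α
  obtain ⟨b, rfl⟩ := hartogs hB2 β
  have h0 : DD (pB 0) ≤ OO := le_sup_left
  have e2 := congrArg (rs h0) e
  rw [← map_mul, ← map_mul, ← map_add, rs_am, map_one] at e2
  have e3 : a * pB 0 + b * pB 1 = 1 := by
    apply am_inj _ hx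
    rw [e2, map_one]
  obtain ⟨ε, hε⟩ := hB1.2.2.2.2.2.2
  have e4 := congrArg ε e3
  rw [map_add, map_mul, map_mul, hε, hε, mul_zero, mul_zero, map_one, add_zero] at e4
  exact zero_ne_one e4

theorem t_O : S_B1 → S_B2 → S_O := fun hB1 hB2 =>
  ⟨dom_OO hB2, qc_OO, smooth_OO hB1, notAffine hB1 hB2, lft hB1⟩

end Pool.Agent.H627.FP
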